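import Mathlib

set_option autoImplicit false

namespace Pool.Agent.H983Z.Inv

section Basic
variable {N : Type} [Monoid N]

def IsInv (N : Type) [Monoid N] : Prop := ∀ x : N, ∃! y : N, x * y * x = x ∧ y * x * y = y

def Pair (x y : N) : Prop := x * y * x = x ∧ y * x * y = y

lemma Pair.symm {x y : N} (h : Pair x y) : Pair y x := ⟨h.2, h.1⟩

lemma IsInv.uniq (hN : IsInv N) {x y z : N} (h1 : Pair x y) (h2 : Pair x z) : y = z :=
  (hN x).unique h1 h2

lemma IsInv.idem_mul (hN : IsInv N) {e f : N} (he : e * e = e) (hf : f * f = f) :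
    e * f * (e * f) = e * f := by
  obtain ⟨x, ⟨h1, h2⟩, -⟩ := hN (e * f)
  have p1 : Pair (e * f) (f * x * e) := by
    constructor
    · calc e * f * (f * x * e) * (e * f) = e * (f * f) * x * (e * e) * f := by simp only [mul_assoc]
        _ = e * f * x * (e * f) := by rw [he, hf]; simp only [mul_assoc]
        _ = e * f := h1
    · calc f * x * e * (e * f) * (f * x * e) = f * (x * ((e * e) * (f * f)) * x) * e := by
            simp only [mul_assoc]
        _ = f * x * e := by rw [he, hf, h2]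
  have hx : x = f * x * e := hN.uniq ⟨h1, h2⟩ p1
  have hxx : x * x = x := by
    calc x * x = f * x * e * (f * x * e) := by rw [← hx]
      _ = f * (x * (e * f) * x) * e := by simp only [mul_assoc]
      _ = x := by rw [h2, ← hx]
  have : x = e * f := hN.uniq (x := x) ⟨by rw [hxx, hxx], by rw [hxx, hxx]⟩ ⟨h2, h1⟩
  rw [← this, hxx]

lemma IsInv.idem_comm (hN : IsInv N) {e f : N} (he : e * e = e) (hf : f * f = f) :
    e * f = f * e := by
  have h1 := hN.idem_mul he hf
  have h2 := hN.idem_mul hf he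
  apply hN.uniq (x := e * f) ⟨by rw [h1, h1], by rw [h1, h1]⟩
  constructor
  · calc e * f * (f * e) * (e * f) = e * (f * f) * (e * e) * f := by simp only [mul_assoc]
      _ = e * f * (e * f) := by rw [he, hf]; simp only [mul_assoc]
      _ = e * f := h1
  · calc f * e * (e * f) * (f * e) = f * (e * e) * (f * f) * e := by simp only [mul_assoc]
      _ = f * e * (f * e) := by rw [he, hf]; simp only [mul_assoc]
      _ = f * e := h2

lemma Pair.idem {x y : N} (h : Pair x y) : x * y * (x * y) = x * y := by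
  rw [← mul_assoc, h.1]

lemma IsInv.pair_mul (hN : IsInv N) {x x' y y' : N} (h1 : Pair x x') (h2 : Pair y y') :
    Pair (x * y) (y' * x') := by
  have c := hN.idem_comm h2.idem h1.symm.idem
  constructor
  · calc x * y * (y' * x') * (x * y) = x * (y * y' * (x' * x)) * y := by simp only [mul_assoc]
      _ = x * x' * x * (y * y' * y) := by rw [c]; simp only [mul_assoc]
      _ = x * y := by rw [h1.1, h2.1]
  · calc y' * x' * (x * y) * (y' * x') = y' * (x' * x * (y * y')) * x' := by simp only [mul_assoc]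
      _ = y' * y * y' * (x' * x * x') := by rw [← c]; simp only [mul_assoc]
      _ = y' * x' := by rw [h1.2, h2.2]

def RU (x : N) : Prop := ∃ y, x * y = 1

lemma RU.left {x y : N} (h : RU (x * y)) : RU x := by
  obtain ⟨z, hz⟩ := h
  exact ⟨y * z, by rw [← mul_assoc, hz]⟩

lemma RU.mul {x y : N} (h1 : RU x) (h2 : RU y) : RU (x * y) := by
  obtain ⟨a, ha⟩ := h1
  obtain ⟨b, hb⟩ := h2
  exact ⟨b * a, by rw [mul_assoc, ← mul_assoc y, hb, one_mul, ha]⟩

lemma RU.one : RU (1 : N) := ⟨1, one_mul 1⟩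

lemma pair_of_mul_eq_one {x y : N} (h : x * y = 1) : Pair x y :=
  ⟨by rw [h, one_mul], by rw [mul_assoc, h, mul_one]⟩

lemma IsInv.ru_pair (hN : IsInv N) {x x' : N} (h : RU x) (hp : Pair x x') : x * x' = 1 := by
  obtain ⟨y, hy⟩ := h
  rw [hN.uniq hp (pair_of_mul_eq_one hy), hy]

lemma IsInv.cancel (hN : IsInv N) {p c c' : N} (hp : Pair c c') (h : RU (p * c)) :
    p * c * c' = p := by
  have h1 := hN.ru_pair h (hN.pair_mul (pair_of_mul_eq_one h.left.choose_spec) hp)
  set q := h.left.choose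
  have hq : p * q = 1 := h.left.choose_spec
  have c1 := hN.idem_comm hp.idem (pair_of_mul_eq_one hq).symm.idem
  calc p * c * c' = p * q * p * (c * c') := by rw [hq, one_mul, mul_assoc]
    _ = p * (q * p * (c * c')) := by simp only [mul_assoc]
    _ = p * c * (c' * q) * p := by rw [← c1]; simp only [mul_assoc]
    _ = p := by rw [h1, one_mul]

end Basic

section Words
variable {X : Type} {N : Type} [Monoid N]

def ev (f : X × Bool → N) (L : List (X × Bool)) : N := (L.map f).prod

def Gen (f : X × Bool → N) : Prop := ∀ x, Pair (f (x, true)) (f (x, false))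

@[simp] lemma ev_nil (f : X × Bool → N) : ev f [] = 1 := rfl
@[simp] lemma ev_cons (f : X × Bool → N) (c : X × Bool) (L : List (X × Bool)) :
    ev f (c :: L) = f c * ev f L := by simp [ev]
@[simp] lemma ev_append (f : X × Bool → N) (L K : List (X × Bool)) :
    ev f (L ++ K) = ev f L * ev f K := by simp [ev]

lemma Gen.letter {f : X × Bool → N} (hf : Gen f) (x : X) (b : Bool) :
    Pair (f (x, b)) (f (x, !b)) := by
  cases b
  · exact (hf x).symm
  · exact hf x

lemma ev_pair (hN : IsInv N) {f : X × Bool → N} (hf : Gen f) (L : List (X × Bool)) :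
    Pair (ev f L) (ev f (FreeGroup.invRev L)) := by
  induction L with
  | nil => simp [Pair]
  | cons c L ih =>
    rw [FreeGroup.invRev_cons, ev_cons, ev_append]
    apply hN.pair_mul _ ih
    simpa [FreeGroup.invRev] using hf.letter c.1 c.2

lemma ev_red (hN : IsInv N) {f : X × Bool → N} (hf : Gen f) {L K : List (X × Bool)}
    (h : FreeGroup.Red L K) (hL : RU (ev f L)) : ev f L = ev f K := by
  induction h with
  | refl => rfl
  | tail _ hs ih =>
    rw [ih] at hL ⊢
    cases hs with
    | @not L1 L2 x b =>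
      simp only [ev_append, ev_cons] at hL ⊢
      have h1 : RU (ev f L1 * f (x, b)) := by
        rw [← mul_assoc] at hL; exact hL.left
      rw [← mul_assoc, ← mul_assoc, hN.cancel (hf.letter x b) h1]

lemma ev_eq_of_mk (hN : IsInv N) {f : X × Bool → N} (hf : Gen f) {L K : List (X × Bool)}
    (h : FreeGroup.mk L = FreeGroup.mk K) (hL : RU (ev f L)) (hK : RU (ev f K)) :
    ev f L = ev f K := by
  obtain ⟨J, h1, h2⟩ := FreeGroup.Red.exact.mp h
  rw [ev_red hN hf h1 hL, ev_red hN hf h2 hK]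

/-- The relator: idempotent blocks followed by a last word. -/
def relator (V : List (List (X × Bool))) (t : List (X × Bool)) : List (X × Bool) :=
  (V.map fun v => v ++ FreeGroup.invRev v).flatten ++ t

lemma relator_iff (hN : IsInv N) {f : X × Bool → N} (hf : Gen f) (V : List (List (X × Bool)))
    (t : List (X × Bool)) :
    ev f (relator V t) = 1 ↔ (∀ v ∈ V, RU (ev f v)) ∧ ev f t = 1 := by
  induction V with
  | nil => simp [relator]
  | cons v V ih =>
    have e : ev f (relator (v :: V) t) =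
        ev f v * ev f (FreeGroup.invRev v) * ev f (relator V t) := by
      simp [relator, mul_assoc]
    rw [e]
    constructor
    · intro h
      have h1 : RU (ev f v) := ⟨_, by rw [← mul_assoc]; exact h⟩
      rw [hN.ru_pair h1 (ev_pair hN hf v), one_mul] at h
      obtain ⟨h2, h3⟩ := ih.mp h
      exact ⟨fun u hu => by rcases List.mem_cons.mp hu with rfl | hu; exacts [h1, h2 u hu], h3⟩
    · rintro ⟨h1, h2⟩
      rw [hN.ru_pair (h1 v (by simp)) (ev_pair hN hf v), one_mul]
      exact ih.mpr ⟨fun u hu => h1 u (List.mem_cons_of_mem _ hu), h2⟩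

end Words

/-! ### The presented inverse monoid -/

section Pres
variable {X : Type} (w : List (X × Bool))

def con : Con (FreeMonoid (X × Bool)) where
  r u v := ∀ (N : Type) [Monoid N] (f : X × Bool → N), IsInv N → Gen f → ev f w = 1 →
    ev f u.toList = ev f v.toList
  iseqv := ⟨fun _ _ _ _ _ _ _ => rfl, fun h N _ f h1 h2 h3 => (h N f h1 h2 h3).symm,
    fun h h' N _ f h1 h2 h3 => (h N f h1 h2 h3).trans (h' N f h1 h2 h3)⟩
  mul' := fun h h' N _ f h1 h2 h3 => by
    rw [FreeMonoid.toList_mul, FreeMonoid.toList_mul, ev_append, ev_append, h N f h1 h2 h3,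
      h' N f h1 h2 h3]

abbrev PM : Type := (con w).Quotient

def io (c : X × Bool) : PM w := (con w).mk' (FreeMonoid.of c)

lemma ev_io (L : List (X × Bool)) : ev (io w) L = (con w).mk' (FreeMonoid.ofList L) := by
  induction L with
  | nil => simp
  | cons c L ih => rw [ev_cons, ih, FreeMonoid.ofList_cons, map_mul]; rfl

lemma ev_io_eq {L K : List (X × Bool)} : ev (io w) L = ev (io w) K ↔
    ∀ (N : Type) [Monoid N] (f : X × Bool → N), IsInv N → Gen f → ev f w = 1 →
      ev f L = ev f K := by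
  rw [ev_io, ev_io]
  exact (con w).eq

lemma ev_surj (x : PM w) : ∃ L, ev (io w) L = x := by
  obtain ⟨u, rfl⟩ := (con w).mk'_surjective x
  exact ⟨u.toList, by rw [ev_io]; rfl⟩

lemma pm_pair (L : List (X × Bool)) :
    Pair (ev (io w) L) (ev (io w) (FreeGroup.invRev L)) := by
  constructor
  · rw [← ev_append, ← ev_append, ev_io_eq]
    intro N _ f h1 h2 _
    rw [ev_append, ev_append]; exact (ev_pair h1 h2 L).1
  · rw [← ev_append, ← ev_append, ev_io_eq]
    intro N _ f h1 h2 _
    rw [ev_append, ev_append]; exact (ev_pair h1 h2 L).2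

lemma pm_inv : IsInv (PM w) := by
  intro x
  obtain ⟨L, rfl⟩ := ev_surj w x
  refine ⟨_, pm_pair w L, ?_⟩
  intro y hy
  obtain ⟨K, rfl⟩ := ev_surj w y
  obtain ⟨h1, h2⟩ := hy
  rw [← ev_append, ← ev_append, ev_io_eq] at h1 h2
  rw [ev_io_eq]
  intro N _ f g1 g2 g3
  have h3 := h1 N f g1 g2 g3
  have h4 := h2 N f g1 g2 g3
  rw [ev_append, ev_append] at h3 h4
  exact g1.uniq ⟨h3, h4⟩ (ev_pair g1 g2 L)

lemma pm_gen : Gen (io w) := by
  intro x
  simpa [FreeGroup.invRev] using pm_pair w [(x, true)]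

lemma pm_rel : ev (io w) w = 1 := by
  rw [← ev_nil (io w), ev_io_eq]
  intro N _ f _ _ h
  exact h

lemma pm_lift (N : Type) [Monoid N] (f : X × Bool → N) (h1 : IsInv N) (h2 : Gen f)
    (h3 : ev f w = 1) : ∃ φ : PM w →* N, ∀ L, φ (ev (io w) L) = ev f L := by
  refine ⟨(con w).lift (FreeMonoid.lift f) ?_, ?_⟩
  · intro u v h
    rw [Con.ker_rel, FreeMonoid.lift_apply, FreeMonoid.lift_apply]
    exact h N f h1 h2 h3
  · intro L
    rw [ev_io, Con.lift_mk', FreeMonoid.lift_apply]
    rfl

end Pres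

/-! ### Partial injections -/

@[ext] structure PI (Ω : Type) where
  r : Ω → Ω → Prop
  fn : ∀ {a b c}, r a b → r a c → b = c
  inj : ∀ {a b c}, r a c → r b c → a = b

namespace PI
variable {Ω : Type}

instance : Monoid (PI Ω) where
  mul p q := ⟨fun a c => ∃ b, p.r a b ∧ q.r b c,
    fun ⟨_, h1, h2⟩ ⟨_, h3, h4⟩ => by cases p.fn h1 h3; exact q.fn h2 h4,
    fun ⟨_, h1, h2⟩ ⟨_, h3, h4⟩ => by cases q.inj h2 h4; exact p.inj h1 h3⟩
  one := ⟨fun a b => a = b, fun h1 h2 => h1.symm.trans h2, fun h1 h2 => h1.trans h2.symm⟩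
  mul_assoc p q s := by
    ext a d
    exact ⟨fun ⟨c, ⟨b, h1, h2⟩, h3⟩ => ⟨b, h1, c, h2, h3⟩,
      fun ⟨b, h1, c, h2, h3⟩ => ⟨c, ⟨b, h1, h2⟩, h3⟩⟩
  one_mul p := by
    ext a c
    exact ⟨fun ⟨b, h1, h2⟩ => by cases h1; exact h2, fun h => ⟨a, rfl, h⟩⟩
  mul_one p := by
    ext a c
    exact ⟨fun ⟨b, h1, h2⟩ => by cases h2; exact h1, fun h => ⟨c, h, rfl⟩⟩

lemma mul_r (p q : PI Ω) (a c : Ω) : (p * q).r a c ↔ ∃ b, p.r a b ∧ q.r b c := Iff.rfl
lemma one_r (a c : Ω) : (1 : PI Ω).r a c ↔ a = c := Iff.rfl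

def tr (p : PI Ω) : PI Ω := ⟨fun a b => p.r b a, fun h1 h2 => p.inj h1 h2, fun h1 h2 => p.fn h1 h2⟩

lemma pair_of {p q : PI Ω} (h : ∀ a b, q.r a b ↔ p.r b a) : Pair p q := by
  constructor
  · ext a d
    constructor
    · rintro ⟨c, ⟨b, h1, h2⟩, h3⟩
      cases p.inj h1 ((h _ _).mp h2); exact h3
    · intro h1
      exact ⟨a, ⟨d, h1, (h _ _).mpr h1⟩, h1⟩
  · ext a d
    constructor
    · rintro ⟨c, ⟨b, h1, h2⟩, h3⟩
      cases p.fn h2 ((h _ _).mp h1); exact h3
    · intro h1
      exact ⟨a, ⟨d, h1, (h _ _).mp h1⟩, h1⟩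

lemma sub_of_pair {p q : PI Ω} (h : p * q * p = p) {a b : Ω} (h1 : p.r a b) : q.r b a := by
  have h2 := h1
  rw [← h] at h2
  obtain ⟨c, ⟨d, h3, h4⟩, h5⟩ := h2
  cases p.fn h1 h3
  cases p.inj h1 h5
  exact h4

lemma isInv : IsInv (PI Ω) := by
  intro p
  refine ⟨p.tr, pair_of fun _ _ => Iff.rfl, ?_⟩
  rintro q ⟨h1, h2⟩
  ext a b
  exact ⟨fun h => sub_of_pair h2 h, fun h => sub_of_pair h1 h⟩

lemma ru_of_total {p : PI Ω} (h : ∀ a, ∃ b, p.r a b) : RU p := by
  refine ⟨p.tr, ?_⟩
  ext a c
  constructor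
  · rintro ⟨b, h1, h2⟩
    exact p.inj h1 h2
  · rintro rfl
    obtain ⟨b, hb⟩ := h a
    exact ⟨b, hb, hb⟩

end PI

/-! ### Right units are generated by prefixes -/

section Prefix
variable {X : Type} (V : List (List (X × Bool))) (t : List (X × Bool))

def Pre : Set (PM (relator V t)) := {x | ∃ v ∈ t :: V, ∃ p, p <+: v ∧ ev (io _) p = x}

lemma pre_ru {x : PM (relator V t)} (h : x ∈ Submonoid.closure (Pre V t)) : RU x := by
  obtain ⟨h1, h2⟩ := (relator_iff (pm_inv _) (pm_gen _) V t).mp (pm_rel _)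
  induction h using Submonoid.closure_induction with
  | mem x hx =>
    obtain ⟨v, hv, p, ⟨q, rfl⟩, rfl⟩ := hx
    rcases List.mem_cons.mp hv with h | h
    · exact ⟨ev (io _) q, by rw [← ev_append, h, h2]⟩
    · have := h1 _ h
      rw [ev_append] at this
      exact this.left
  | one => exact RU.one
  | mul x y _ _ hx hy => exact hx.mul hy

def act (c : X × Bool) : PI (Submonoid.closure (Pre V t)) where
  r a b := (b : PM (relator V t)) = a.1 * io _ c
  fn h1 h2 := Subtype.ext (h1.trans h2.symm)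
  inj := by
    intro a b d h1 h2
    apply Subtype.ext
    have g := (pm_gen (relator V t)).letter c.1 c.2
    have r1 := pre_ru V t d.2
    have e1 := (pm_inv _).cancel g (h1 ▸ r1)
    have e2 := (pm_inv _).cancel g (h2 ▸ r1)
    rw [← e1, ← e2]
    congr 1
    exact h1.symm.trans h2

lemma act_gen : Gen (act V t) := by
  intro x
  apply PI.pair_of
  intro a b
  constructor
  · intro h
    have h' : (b : PM (relator V t)) = a.1 * io _ (x, false) := h
    have e := (pm_inv _).cancel (pm_gen (relator V t) x).symm (h' ▸ pre_ru V t b.2)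
    show (a : PM (relator V t)) = b.1 * io _ (x, true)
    rw [h', e]
  · intro h
    have h' : (a : PM (relator V t)) = b.1 * io _ (x, true) := h
    have e := (pm_inv _).cancel (pm_gen (relator V t) x) (h' ▸ pre_ru V t a.2)
    show (b : PM (relator V t)) = a.1 * io _ (x, false)
    rw [h', e]

lemma act_val (L : List (X × Bool)) : ∀ a b, (ev (act V t) L).r a b →
    (b : PM (relator V t)) = a.1 * ev (io _) L := by
  induction L with
  | nil => intro a b h; cases h; simp
  | cons c L ih =>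
    intro a b h
    rw [ev_cons] at h
    obtain ⟨d, h1, h2⟩ := h
    rw [ih d b h2, ev_cons, ← mul_assoc]
    congr 1

lemma act_total (L : List (X × Bool)) : ∀ a : Submonoid.closure (Pre V t),
    (∀ p, p <+: L → a.1 * ev (io _) p ∈ Submonoid.closure (Pre V t)) →
      ∃ b, (ev (act V t) L).r a b := by
  induction L with
  | nil => intro a _; exact ⟨a, rfl⟩
  | cons c L ih =>
    intro a h
    have h1 := h [c] (by simp)
    simp only [ev_cons, ev_nil, mul_one] at h1
    obtain ⟨b, hb⟩ := ih ⟨_, h1⟩ (fun p hp => by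
      have := h (c :: p) (by simpa using hp)
      simpa [mul_assoc] using this)
    exact ⟨b, by rw [ev_cons]; exact ⟨⟨_, h1⟩, rfl, hb⟩⟩

lemma ru_mem {x : PM (relator V t)} (h : RU x) : x ∈ Submonoid.closure (Pre V t) := by
  obtain ⟨h1, h2⟩ := (relator_iff (pm_inv _) (pm_gen _) V t).mp (pm_rel _)
  have tot : ∀ v ∈ t :: V, ∀ a, ∃ b, (ev (act V t) v).r a b := fun v hv a =>
    act_total V t v a fun p hp => mul_mem a.2 (Submonoid.subset_closure ⟨v, hv, p, hp, rfl⟩)
  have hrel : ev (act V t) (relator V t) = 1 := by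
    rw [relator_iff PI.isInv (act_gen V t)]
    refine ⟨fun v hv => PI.ru_of_total (tot v (List.mem_cons_of_mem _ hv)), ?_⟩
    ext a b
    constructor
    · intro h
      have := act_val V t t a b h
      rw [h2, mul_one] at this
      exact (Subtype.ext this).symm
    · rintro rfl
      obtain ⟨b, hb⟩ := tot t (by simp) a
      have := act_val V t t a b hb
      rw [h2, mul_one] at this
      cases Subtype.ext this
      exact hb
  obtain ⟨φ, hφ⟩ := pm_lift _ _ (act V t) PI.isInv (act_gen V t) hrel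
  obtain ⟨L, rfl⟩ := ev_surj _ x
  obtain ⟨y, hy⟩ := h
  have h3 := congrArg φ hy
  rw [map_mul, map_one, hφ] at h3
  have h4 : (ev (act V t) L * φ y).r 1 1 := by rw [h3]; rfl
  obtain ⟨b, hb, -⟩ := h4
  have h5 := act_val V t L 1 b hb
  simp only [OneMemClass.coe_one, one_mul] at h5
  exact h5 ▸ b.2

/-- A submonoid containing every left invertible prefix contains every unit. -/
lemma unit_mem (U : Submonoid (PM (relator V t)))
    (hU : ∀ x ∈ Pre V t, (∃ y, y * x = 1) → x ∈ U) {x : PM (relator V t)} (h : RU x)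
    (h' : ∃ y, y * x = 1) : x ∈ U := by
  have h1 := ru_mem V t h
  induction h1 using Submonoid.closure_induction_right with
  | one => exact one_mem U
  | mul_right x hx p hp ih =>
    obtain ⟨y, hy⟩ := h'
    obtain ⟨q, hq⟩ := pre_ru V t (Submonoid.subset_closure hp)
    have e : y * x = q := by
      calc y * x = y * x * (p * q) := by rw [hq, mul_one]
        _ = y * (x * p) * q := by simp only [mul_assoc]
        _ = q := by rw [hy, one_mul]
    refine mul_mem (ih (pre_ru V t hx) ⟨p * y, by rw [mul_assoc, e, hq]⟩) (hU p hp ⟨y * x, ?_⟩)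
    rw [mul_assoc, hy]

end Prefix

end Pool.Agent.H983Z.Inv
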