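import Pool.Agent.H983Z.Inv.Basic

set_option autoImplicit false

namespace Pool.Agent.H983Z.Inv

open FreeGroup hiding map_mul map_inv map_one

variable {n : ℕ}

/-- words over the old alphabet, read in the new alphabet (letter 0 is `z`, letter 1 is `s`) -/
def emb (L : List (Fin n × Bool)) : List (Fin (n + 2) × Bool) := L.map fun x => (x.1.succ.succ, x.2)

def wrap (i : Fin (n + 2)) (L : List (Fin n × Bool)) (j : Fin (n + 2)) : List (Fin (n + 2) × Bool) :=
  (i, true) :: (emb L ++ [(j, false)])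

noncomputable def E : FreeGroup (Fin n) →* FreeGroup (Fin (n + 2)) :=
  FreeGroup.map fun x => x.succ.succ

lemma mk_emb (L : List (Fin n × Bool)) : mk (emb L) = E (mk L) := by
  simp [E, emb, FreeGroup.map.mk]

lemma mk_wrap (i j : Fin (n + 2)) (L : List (Fin n × Bool)) :
    mk (wrap i L j) = of i * E (mk L) * (of j)⁻¹ := by
  rw [← mk_emb]
  simp [wrap, FreeGroup.of, FreeGroup.inv_mk, FreeGroup.mul_mk, FreeGroup.invRev]

lemma invRev_wrap (i j : Fin (n + 2)) (L : List (Fin n × Bool)) :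
    invRev (wrap i L j) = wrap j (invRev L) i := by
  simp [wrap, emb, FreeGroup.invRev, List.map_reverse]

section Con
variable {k : ℕ} (r : FreeGroup (Fin n)) (W : Fin k → FreeGroup (Fin n))
  (T : List (FreeGroup (Fin n)))

noncomputable def VV : List (List (Fin (n + 2) × Bool)) :=
  wrap 0 [] 0 :: ((List.ofFn fun j => wrap 0 (W j).toWord 0) ++
    (List.ofFn fun j => wrap 0 ((W j)⁻¹).toWord 0) ++ T.map fun u => wrap 0 u.toWord 1)

noncomputable def tt : List (Fin (n + 2) × Bool) := wrap 1 r.toWord 1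

lemma mem_VV {v : List (Fin (n + 2) × Bool)} : v ∈ VV W T ↔ v = wrap 0 [] 0 ∨
    (∃ j, wrap 0 (W j).toWord 0 = v) ∨ (∃ j, wrap 0 ((W j)⁻¹).toWord 0 = v) ∨
      ∃ u ∈ T, wrap 0 u.toWord 1 = v := by
  simp [VV, List.mem_ofFn, or_assoc]

abbrev MM : Type := PM (relator (VV W T) (tt r))

noncomputable abbrev eM (L : List (Fin (n + 2) × Bool)) : MM r W T := ev (io _) L

lemma rel_parts : (∀ v ∈ VV W T, RU (eM r W T v)) ∧ eM r W T (tt r) = 1 :=
  (relator_iff (pm_inv _) (pm_gen _) _ _).mp (pm_rel _)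

def Rel (g : FreeGroup (Fin n)) (x : MM r W T) : Prop :=
  RU x ∧ ∃ K, mk K = of 0 * E g * (of 0)⁻¹ ∧ eM r W T K = x

variable {r W T}

lemma Rel.uniq {g : FreeGroup (Fin n)} {x y : MM r W T} (h1 : Rel r W T g x)
    (h2 : Rel r W T g y) : x = y := by
  obtain ⟨a1, K1, b1, rfl⟩ := h1
  obtain ⟨a2, K2, b2, rfl⟩ := h2
  exact ev_eq_of_mk (pm_inv _) (pm_gen _) (b1.trans b2.symm) a1 a2

lemma Rel.mul {g h : FreeGroup (Fin n)} {x y : MM r W T} (h1 : Rel r W T g x)
    (h2 : Rel r W T h y) : Rel r W T (g * h) (x * y) := by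
  obtain ⟨a1, K1, b1, rfl⟩ := h1
  obtain ⟨a2, K2, b2, rfl⟩ := h2
  refine ⟨a1.mul a2, K1 ++ K2, ?_, ev_append _ _ _⟩
  rw [← mul_mk, b1, b2, map_mul]; group

lemma Rel.one : Rel r W T 1 1 := ⟨RU.one, [], by simp [← FreeGroup.one_eq_mk], rfl⟩

lemma Rel.inv {g : FreeGroup (Fin n)} {x y : MM r W T} (h1 : Rel r W T g x) (hxy : x * y = 1)
    (hyx : y * x = 1) : Rel r W T g⁻¹ y := by
  obtain ⟨-, K, b, rfl⟩ := h1
  refine ⟨⟨_, hyx⟩, invRev K, ?_, ?_⟩
  · rw [← inv_mk, b, map_inv]; group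
  · exact (pm_inv _).uniq (pm_pair _ K) (pair_of_mul_eq_one hxy)

lemma rel_wrap {g : FreeGroup (Fin n)} (h : wrap 0 g.toWord 0 ∈ VV W T) :
    Rel r W T g (eM r W T (wrap 0 g.toWord 0)) :=
  ⟨(rel_parts r W T).1 _ h, _, by rw [mk_wrap, mk_toWord], rfl⟩

lemma rel_conj {u : FreeGroup (Fin n)} (h : u ∈ T) : Rel r W T (u * r * u⁻¹) 1 := by
  have h1 : RU (eM r W T (wrap 0 u.toWord 1)) :=
    (rel_parts r W T).1 _ ((mem_VV W T).mpr (Or.inr (Or.inr (Or.inr ⟨u, h, rfl⟩))))
  refine ⟨RU.one, wrap 0 u.toWord 1 ++ tt r ++ invRev (wrap 0 u.toWord 1), ?_, ?_⟩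
  · rw [← mul_mk, ← mul_mk, ← inv_mk, tt, mk_wrap, mk_wrap, mk_toWord, mk_toWord, map_mul,
      map_mul, map_inv]
    group
  · have h2 := (rel_parts r W T).2
    simp only [eM, ev_append] at h2 ⊢
    rw [h2, mul_one]
    exact (pm_inv _).ru_pair h1 (pm_pair _ _)

variable (r W T)

noncomputable def unitW (j : Fin k) : (MM r W T)ˣ where
  val := eM r W T (wrap 0 (W j).toWord 0)
  inv := eM r W T (wrap 0 ((W j)⁻¹).toWord 0)
  val_inv := by
    have h1 := rel_wrap (r := r) ((mem_VV W T).mpr (Or.inr (Or.inl ⟨j, rfl⟩)))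
    have h2 := rel_wrap (r := r) ((mem_VV W T).mpr (Or.inr (Or.inr (Or.inl ⟨j, rfl⟩))))
    have h3 := h1.mul h2
    rw [mul_inv_cancel] at h3
    exact h3.uniq Rel.one
  inv_val := by
    have h1 := rel_wrap (r := r) ((mem_VV W T).mpr (Or.inr (Or.inl ⟨j, rfl⟩)))
    have h2 := rel_wrap (r := r) ((mem_VV W T).mpr (Or.inr (Or.inr (Or.inl ⟨j, rfl⟩))))
    have h3 := h2.mul h1
    rw [inv_mul_cancel] at h3
    exact h3.uniq Rel.one

noncomputable def psi : FreeGroup (Fin k) →* (MM r W T)ˣ := FreeGroup.lift (unitW r W T)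

lemma rel_psi (g : FreeGroup (Fin k)) : Rel r W T (FreeGroup.lift W g) (psi r W T g : MM r W T) := by
  induction g using FreeGroup.induction_on with
  | C1 => simpa using Rel.one
  | of j =>
    simp only [psi, FreeGroup.lift_apply_of]
    exact rel_wrap ((mem_VV W T).mpr (Or.inr (Or.inl ⟨j, rfl⟩)))
  | inv_of j ih =>
    rw [map_inv, map_inv]
    exact ih.inv (by simp) (by simp)
  | mul x y hx hy =>
    rw [map_mul, map_mul, Units.val_mul]
    exact hx.mul hy

lemma rel_closure {g : FreeGroup (Fin n)}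
    (h : g ∈ Subgroup.closure {c | ∃ u ∈ T, u * r * u⁻¹ = c}) : Rel r W T g 1 := by
  induction h using Subgroup.closure_induction with
  | mem x hx => obtain ⟨u, hu, rfl⟩ := hx; exact rel_conj hu
  | one => exact Rel.one
  | mul x y _ _ hx hy => simpa using hx.mul hy
  | inv x _ hx => exact hx.inv (one_mul 1) (one_mul 1)

/-! The map to the group. -/

lemma group_isInv (G : Type) [Group G] : IsInv G := by
  intro x
  refine ⟨x⁻¹, ⟨by group, by group⟩, ?_⟩
  rintro y ⟨h1, -⟩
  calc y = x⁻¹ * (x * y * x) * x⁻¹ := by group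
    _ = x⁻¹ := by rw [h1]; group

lemma ev_group {X G : Type} [Group G] (γ : X → G) (K : List (X × Bool)) :
    ev (fun c => cond c.2 (γ c.1) (γ c.1)⁻¹) K = FreeGroup.lift γ (mk K) := by
  rw [FreeGroup.lift_mk]; rfl

lemma rel_ker {G : Type} [Group G] (π : FreeGroup (Fin n) →* G) (hr : π r = 1)
    {g : FreeGroup (Fin n)} (h : Rel r W T g 1) : π g = 1 := by
  let γ : Fin (n + 2) → G := Fin.cons 1 (Fin.cons 1 fun i => π (of i))
  have hE : ∀ g, FreeGroup.lift γ (E g) = π g := by
    intro g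
    have : (FreeGroup.lift γ).comp E = π := by
      ext i; simp [E, γ]
    exact DFunLike.congr_fun this g
  have g0 : γ 0 = 1 := rfl
  have g1 : γ 1 = 1 := rfl
  have hg : Gen (fun c : Fin (n + 2) × Bool => cond c.2 (γ c.1) (γ c.1)⁻¹) := by
    intro x; constructor <;> simp
  obtain ⟨κ, hκ⟩ := pm_lift (relator (VV W T) (tt r)) G _ (group_isInv G) hg (by
    rw [relator_iff (group_isInv G) hg]
    refine ⟨fun v _ => ⟨_, mul_inv_cancel _⟩, ?_⟩
    rw [ev_group, tt, mk_wrap, mk_toWord]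
    simp [hE, hr])
  obtain ⟨-, K, b, e⟩ := h
  have := hκ K
  rw [show ev (io _) K = 1 from e, map_one, ev_group, b] at this
  simpa [hE, g0] using this.symm

/-! The height model. -/

def wt (i : Fin (n + 2)) : ℤ := Fin.cons (α := fun _ => ℤ) 2 (Fin.cons (α := fun _ => ℤ) 1 fun _ => 0) i

def wl (c : Fin (n + 2) × Bool) : ℤ := cond c.2 (wt c.1) (-wt c.1)

def sh (c : Fin (n + 2) × Bool) : PI ℕ where
  r a b := (b : ℤ) = a + wl c
  fn h1 h2 := by exact_mod_cast h1.trans h2.symm
  inj h1 h2 := by exact_mod_cast add_right_cancel (h1.symm.trans h2)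

lemma sh_gen : Gen (sh (n := n)) := by
  intro x
  apply PI.pair_of
  intro a b
  simp only [sh, wl, cond_true, cond_false]
  omega

lemma sh_val (L : List (Fin (n + 2) × Bool)) : ∀ a b, (ev sh L).r a b →
    (b : ℤ) = a + (L.map wl).sum := by
  induction L with
  | nil => intro a b h; cases h; simp
  | cons c L ih =>
    intro a b h
    rw [ev_cons] at h
    obtain ⟨d, h1, h2⟩ := h
    have h3 : (d : ℤ) = a + wl c := h1
    rw [ih d b h2, h3]; simp [add_assoc]

lemma wl_emb (c : Fin n × Bool) : wl ((c.1.succ.succ, c.2) : Fin (n + 2) × Bool) = 0 := by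
  cases h : c.2 <;> simp [wl, wt]

lemma sh_emb (L : List (Fin n × Bool)) : ev sh (emb L) = 1 := by
  induction L with
  | nil => rfl
  | cons c L ih =>
    have : sh ((c.1.succ.succ, c.2) : Fin (n + 2) × Bool) = 1 := by
      ext a b
      simp only [sh, wl_emb, PI.one_r]
      omega
    rw [emb, List.map_cons, ev_cons, this, one_mul]
    exact ih

lemma sh_wrap (i j : Fin (n + 2)) (L : List (Fin n × Bool)) (hj : 0 ≤ wt j) (h : wt j ≤ wt i)
    (a : ℕ) : ∃ b, (ev sh (wrap i L j)).r a b := by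
  refine ⟨(a + wt i - wt j).toNat, ?_⟩
  simp only [wrap, ev_cons, ev_append, sh_emb, one_mul, ev_nil, mul_one]
  refine ⟨(a + wt i).toNat, ?_, ?_⟩
  · simp only [sh, wl, cond_true]; omega
  · simp only [sh, wl, cond_false]; omega

lemma sum_emb_prefix {L : List (Fin n × Bool)} {p : List (Fin (n + 2) × Bool)}
    (h : p <+: emb L) : (p.map wl).sum = 0 := by
  apply List.sum_eq_zero
  intro x hx
  obtain ⟨c, hc, rfl⟩ := List.mem_map.mp hx
  obtain ⟨d, -, rfl⟩ := List.mem_map.mp (h.subset hc)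
  exact wl_emb d

lemma prefix_wrap {i j : Fin (n + 2)} {L : List (Fin n × Bool)} {p : List (Fin (n + 2) × Bool)}
    (h : p <+: wrap i L j) : p = [] ∨ p = wrap i L j ∨ (p.map wl).sum = wt i := by
  cases p with
  | nil => exact Or.inl rfl
  | cons c p =>
    rw [wrap, List.cons_prefix_cons] at h
    obtain ⟨rfl, h⟩ := h
    rcases List.prefix_concat_iff.mp h with rfl | h
    · exact Or.inr (Or.inl rfl)
    · right; right
      simp [sum_emb_prefix h, wl]

lemma sum_wrap (i j : Fin (n + 2)) (L : List (Fin n × Bool)) :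
    ((wrap i L j).map wl).sum = wt i - wt j := by
  simp [wrap, sum_emb_prefix (List.prefix_refl (emb L)), wl, sub_eq_add_neg]

lemma left_inv_wt {L : List (Fin (n + 2) × Bool)} (h : ∃ y, y * eM r W T L = 1) :
    (L.map wl).sum ≤ 0 := by
  have w0 : wt (0 : Fin (n + 2)) = 2 := rfl
  have w1 : wt (1 : Fin (n + 2)) = 1 := rfl
  obtain ⟨φ, hφ⟩ := pm_lift (relator (VV W T) (tt r)) _ sh PI.isInv sh_gen (by
    rw [relator_iff PI.isInv sh_gen]
    constructor
    · intro v hv
      apply PI.ru_of_total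
      rcases (mem_VV W T).mp hv with rfl | ⟨j, rfl⟩ | ⟨j, rfl⟩ | ⟨u, -, rfl⟩ <;>
        exact sh_wrap _ _ _ (by omega) (by omega)
    · ext a b
      constructor
      · intro h
        have := sh_val _ _ _ h
        rw [tt, sum_wrap] at this
        show a = b
        omega
      · rintro rfl
        obtain ⟨b, hb⟩ := sh_wrap 1 1 r.toWord (by omega) le_rfl a
        have := sh_val _ _ _ hb
        rw [sum_wrap] at this
        have e : b = a := by omega
        subst e
        exact hb)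
  obtain ⟨y, hy⟩ := h
  have h3 := congrArg φ hy
  rw [map_mul, map_one, hφ] at h3
  have h4 : (φ y * ev sh L).r 0 0 := by rw [h3]; rfl
  obtain ⟨b, -, hb⟩ := h4
  have := sh_val _ _ _ hb
  omega

lemma psi_surj : Function.Surjective (psi r W T) := by
  have w0 : wt (0 : Fin (n + 2)) = 2 := rfl
  have w1 : wt (1 : Fin (n + 2)) = 1 := rfl
  intro x
  have := unit_mem (VV W T) (tt r) (MonoidHom.mrange ((Units.coeHom _).comp (psi r W T)))
    (x := (x : MM r W T)) ?_ ⟨_, x.mul_inv⟩ ⟨_, x.inv_mul⟩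
  · obtain ⟨g, hg⟩ := this
    exact ⟨g, Units.ext hg⟩
  · rintro y ⟨v, hv, p, hp, rfl⟩ hl
    have hw := left_inv_wt r W T hl
    rcases List.mem_cons.mp hv with rfl | hv
    · rcases prefix_wrap hp with rfl | rfl | h
      · exact one_mem _
      · have := (rel_parts r W T).2
        rw [show ev (io _) (wrap 1 r.toWord 1) = 1 from this]
        exact one_mem _
      · omega
    · rcases (mem_VV W T).mp hv with rfl | ⟨j, rfl⟩ | ⟨j, rfl⟩ | ⟨u, -, rfl⟩
      · rcases prefix_wrap hp with rfl | rfl | h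
        · exact one_mem _
        · have h1 := rel_wrap (r := r) (W := W) (T := T) (g := 1) (by simpa using hv)
          have h2 := h1.uniq Rel.one
          simp only [toWord_one] at h2
          rw [show ev (io _) (wrap 0 [] 0) = 1 from h2]
          exact one_mem _
        · omega
      · rcases prefix_wrap hp with rfl | rfl | h
        · exact one_mem _
        · exact ⟨of j, by simp [psi, unitW]⟩
        · omega
      · rcases prefix_wrap hp with rfl | rfl | h
        · exact one_mem _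
        · refine ⟨(of j)⁻¹, ?_⟩
          simp only [MonoidHom.comp_apply, map_inv, psi, FreeGroup.lift_apply_of]
          rfl
        · omega
      · rcases prefix_wrap hp with rfl | rfl | h
        · exact one_mem _
        · rw [sum_wrap] at hw; omega
        · omega

end Con

lemma exists_conj (r : FreeGroup (Fin n)) {g : FreeGroup (Fin n)}
    (h : g ∈ Subgroup.normalClosure ({r} : Set (FreeGroup (Fin n)))) :
    ∃ T : List (FreeGroup (Fin n)), g ∈ Subgroup.closure {c | ∃ u ∈ T, u * r * u⁻¹ = c} := by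
  unfold Subgroup.normalClosure at h
  induction h using Subgroup.closure_induction with
  | mem x hx =>
    obtain ⟨a, ha, hc⟩ := Group.mem_conjugatesOfSet_iff.mp hx
    obtain ⟨u, hu⟩ := isConj_iff.mp hc
    rw [Set.mem_singleton_iff.mp ha] at hu
    exact ⟨[u], Subgroup.subset_closure ⟨u, by simp, hu⟩⟩
  | one => exact ⟨[], one_mem _⟩
  | mul x y _ _ hx hy =>
    obtain ⟨T1, h1⟩ := hx
    obtain ⟨T2, h2⟩ := hy
    refine ⟨T1 ++ T2, mul_mem (Subgroup.closure_mono ?_ h1) (Subgroup.closure_mono ?_ h2)⟩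
    · rintro c ⟨u, hu, rfl⟩; exact ⟨u, by simp [hu], rfl⟩
    · rintro c ⟨u, hu, rfl⟩; exact ⟨u, by simp [hu], rfl⟩
  | inv x _ hx => obtain ⟨T, h⟩ := hx; exact ⟨T, inv_mem h⟩

lemma exists_conj_list (r : FreeGroup (Fin n)) (l : List (FreeGroup (Fin n)))
    (h : ∀ g ∈ l, g ∈ Subgroup.normalClosure ({r} : Set (FreeGroup (Fin n)))) :
    ∃ T : List (FreeGroup (Fin n)), ∀ g ∈ l,
      g ∈ Subgroup.closure {c | ∃ u ∈ T, u * r * u⁻¹ = c} := by
  induction l with
  | nil => exact ⟨[], by simp⟩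
  | cons a l ih =>
    obtain ⟨T1, h1⟩ := exists_conj r (h a (by simp))
    obtain ⟨T2, h2⟩ := ih fun g hg => h g (List.mem_cons_of_mem _ hg)
    refine ⟨T1 ++ T2, fun g hg => ?_⟩
    rcases List.mem_cons.mp hg with rfl | hg
    · refine Subgroup.closure_mono ?_ h1
      rintro c ⟨u, hu, rfl⟩; exact ⟨u, by simp [hu], rfl⟩
    · refine Subgroup.closure_mono ?_ (h2 g hg)
      rintro c ⟨u, hu, rfl⟩; exact ⟨u, by simp [hu], rfl⟩

theorem units_iso (r : FreeGroup (Fin n))
    (H : Subgroup (PresentedGroup ({r} : Set (FreeGroup (Fin n)))))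
    (hH : Group.IsFinitelyPresented H) :
    ∃ w : List (Fin (n + 2) × Bool), Nonempty (H ≃* (PM w)ˣ) := by
  obtain ⟨k, φ, hφ, S, hS, hker⟩ := hH.out
  let π : FreeGroup (Fin n) →* PresentedGroup ({r} : Set (FreeGroup (Fin n))) :=
    PresentedGroup.mk _
  have hπ : Function.Surjective π := PresentedGroup.mk_surjective _
  choose W hW using fun j => hπ (φ (of j))
  have hθ : ∀ g, π (FreeGroup.lift W g) = φ g := by
    intro g
    have : π.comp (FreeGroup.lift W) = H.subtype.comp φ := by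
      ext j; simp [hW]
    exact DFunLike.congr_fun this g
  obtain ⟨T, hT⟩ := exists_conj_list r (hS.toFinset.toList.map (FreeGroup.lift W)) (by
    intro g hg
    obtain ⟨s, hs, rfl⟩ := List.mem_map.mp hg
    have h1 : s ∈ φ.ker := by
      rw [← hker]; exact Subgroup.subset_normalClosure (by simpa using hs)
    have h2 := hθ s
    rw [MonoidHom.mem_ker.mp h1] at h2
    exact PresentedGroup.mk_eq_one_iff.mp h2)
  have hk : φ.ker = (psi r W T).ker := by
    apply le_antisymm
    · rw [← hker]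
      apply Subgroup.normalClosure_le_normal
      intro s hs
      have h1 := rel_closure r W T (hT _ (List.mem_map.mpr ⟨s, by simpa using hs, rfl⟩))
      exact Units.ext ((rel_psi r W T s).uniq h1)
    · intro g hg
      have h1 := rel_psi r W T g
      rw [MonoidHom.mem_ker.mp hg] at h1
      have h2 := rel_ker r W T π (PresentedGroup.one_of_mem (by simp)) h1
      rw [hθ] at h2
      exact Subtype.ext h2
  exact ⟨_, ⟨((QuotientGroup.quotientKerEquivOfSurjective φ hφ).symm.trans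
    (QuotientGroup.quotientMulEquivOfEq hk)).trans
    (QuotientGroup.quotientKerEquivOfSurjective _ (psi_surj r W T))⟩⟩

def toS {X : Type} (c : X × Bool) : X ⊕ X := cond c.2 (Sum.inl c.1) (Sum.inr c.1)
def ofS {X : Type} : X ⊕ X → X × Bool := Sum.elim (fun x => (x, true)) fun x => (x, false)

lemma ofS_toS {X : Type} (c : X × Bool) : ofS (toS c) = c := by
  obtain ⟨x, b⟩ := c; cases b <;> rfl

lemma toS_ofS {X : Type} (c : X ⊕ X) : toS (ofS c) = c := by cases c <;> rfl

theorem main (n : ℕ) (r : FreeGroup (Fin n))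
    (H : Subgroup (PresentedGroup ({r} : Set (FreeGroup (Fin n)))))
    (hH : Group.IsFinitelyPresented H) :
    ∃ (m : ℕ) (w : List (Fin m ⊕ Fin m)) (M : Type) (_ : Monoid M)
      (ι : Fin m ⊕ Fin m → M),
      (∀ x : M, ∃! y : M, x * y * x = x ∧ y * x * y = y) ∧
      (∀ b : Fin m, ι (Sum.inl b) * ι (Sum.inr b) * ι (Sum.inl b) = ι (Sum.inl b) ∧
        ι (Sum.inr b) * ι (Sum.inl b) * ι (Sum.inr b) = ι (Sum.inr b)) ∧
      (w.map ι).prod = 1 ∧
      Submonoid.closure (Set.range ι) = ⊤ ∧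
      (∀ (N : Type) [Monoid N],
        (∀ x : N, ∃! y : N, x * y * x = x ∧ y * x * y = y) →
        ∀ f : Fin m ⊕ Fin m → N,
          (∀ b : Fin m, f (Sum.inl b) * f (Sum.inr b) * f (Sum.inl b) = f (Sum.inl b) ∧
            f (Sum.inr b) * f (Sum.inl b) * f (Sum.inr b) = f (Sum.inr b)) →
          (w.map f).prod = 1 →
          ∃ φ : M →* N, ∀ c, φ (ι c) = f c) ∧
      Nonempty (H ≃* Mˣ) := by
  obtain ⟨w, hw⟩ := units_iso r H hH
  refine ⟨n + 2, w.map toS, PM w, inferInstance, fun c => io w (ofS c), pm_inv w,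
    fun b => pm_gen w b, ?_, ?_, ?_, hw⟩
  · have := pm_rel w
    simpa [ev, Function.comp_def, ofS_toS] using this
  · rw [eq_top_iff]
    intro x _
    obtain ⟨L, rfl⟩ := ev_surj w x
    apply list_prod_mem
    intro y hy
    obtain ⟨c, -, rfl⟩ := List.mem_map.mp hy
    exact Submonoid.subset_closure ⟨toS c, by simp [ofS_toS]⟩
  · intro N _ hN f hf hrel
    obtain ⟨φ, hφ⟩ := pm_lift w N (fun c => f (toS c)) hN (fun b => hf b)
      (by simpa [ev, Function.comp_def] using hrel)
    refine ⟨φ, fun c => ?_⟩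
    have := hφ [ofS c]
    simpa [toS_ofS] using this

end Pool.Agent.H983Z.Inv
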